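import Pool.Agent.Helper72.PT.St

/-! PT, module Ee -/

open Finset

namespace Pool.Agent.Helper95.PT

open Pool.HW Pool.PL Pool.PT

/-- dyadic bound for `1 / (m + 1)` -/
theorem dyad {m I : ℕ} (h : m < 2 ^ I) :
    1 / ((m : ℝ) + 1) ≤ 2 * ∑ i ∈ range (I + 1), (1 / 2 ^ i : ℝ) * (if m < 2 ^ i then 1 else 0) := by
  classical
  have hex : ∃ i, m < 2 ^ i := ⟨I, h⟩
  set i0 := Nat.find hex with hi0
  have h1 : m < 2 ^ i0 := Nat.find_spec hex
  have h2 : i0 ≤ I := Nat.find_min' hex h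
  have hle : (1 / 2 ^ i0 : ℝ) * (if m < 2 ^ i0 then 1 else 0) ≤
      ∑ i ∈ range (I + 1), (1 / 2 ^ i : ℝ) * (if m < 2 ^ i then 1 else 0) := by
    apply Finset.single_le_sum (f := fun i => (1 / 2 ^ i : ℝ) * (if m < 2 ^ i then 1 else 0))
    · intro i _
      apply mul_nonneg (by positivity)
      split_ifs <;> norm_num
    · rw [mem_range]; omega
  rw [if_pos h1, mul_one] at hle
  have key : 1 / ((m : ℝ) + 1) ≤ 2 * (1 / 2 ^ i0 : ℝ) := by
    rcases Nat.eq_zero_or_pos i0 with h0 | h0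
    · rw [h0, pow_zero]
      have : (0 : ℝ) ≤ m := by positivity
      rw [div_le_iff₀ (by positivity)]
      nlinarith
    · have h3 : ¬ m < 2 ^ (i0 - 1) := Nat.find_min hex (by omega)
      push Not at h3
      have h4 : (2 : ℝ) ^ (i0 - 1) ≤ m := by exact_mod_cast h3
      have h5 : (2 : ℝ) ^ i0 = 2 * 2 ^ (i0 - 1) := by
        rw [← pow_succ']
        congr 1
        omega
      rw [h5]
      have h6 : (0 : ℝ) < 2 ^ (i0 - 1) := by positivity
      have h7 : 2 * (1 / (2 * 2 ^ (i0 - 1)) : ℝ) = 1 / 2 ^ (i0 - 1) := by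
        field_simp
      rw [h7]
      exact one_div_le_one_div_of_le h6 (by linarith)
  linarith

theorem ncr_le {α : Type} (S : Sys α) {L : List α} (hL : ∀ p ∈ L, p ∈ S.P) (r : ℕ)
    (L' : List α) : S.ncr r L L' ≤ r := by
  unfold Sys.ncr
  have hsub : (S.hts L ∩ S.hts L').filter (· ≤ r) ⊆ Icc 1 r := by
    intro t ht
    rw [mem_filter, mem_inter] at ht
    obtain ⟨K, hK, hne, hKt⟩ := (S.mem_hts).1 ht.1.1
    rw [mem_Icc]
    refine ⟨?_, ht.2⟩
    have h1 := S.length_le_ht (L := K) (fun p hp => hL p (hK.subset hp))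
    have h2 := List.length_pos_iff.2 hne
    omega
  have := Finset.card_le_card hsub
  simpa using this

theorem ee (h : StLow) : StEe := by
  classical
  intro α _ S r I hr
  have hV := S.V_nonneg r
  have hstep : S.ee r ≤ 2 * ∑ i ∈ range (I + 1), (1 / 2 ^ i : ℝ) *
      ∑ q ∈ (S.CR r ×ˢ S.CR r).filter (fun q => S.ncr r q.1 q.2 < 2 ^ i),
        S.wt q.1 * S.wt q.2 := by
    have e1 : 2 * ∑ i ∈ range (I + 1), (1 / 2 ^ i : ℝ) *
      ∑ q ∈ (S.CR r ×ˢ S.CR r).filter (fun q => S.ncr r q.1 q.2 < 2 ^ i),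
        S.wt q.1 * S.wt q.2 = ∑ q ∈ S.CR r ×ˢ S.CR r, S.wt q.1 * S.wt q.2 *
          (2 * ∑ i ∈ range (I + 1), (1 / 2 ^ i : ℝ) *
            (if S.ncr r q.1 q.2 < 2 ^ i then 1 else 0)) := by
      have e2 : ∀ i ∈ range (I + 1), (1 / 2 ^ i : ℝ) *
          ∑ q ∈ (S.CR r ×ˢ S.CR r).filter (fun q => S.ncr r q.1 q.2 < 2 ^ i),
            S.wt q.1 * S.wt q.2 = ∑ q ∈ S.CR r ×ˢ S.CR r, S.wt q.1 * S.wt q.2 *
              ((1 / 2 ^ i : ℝ) * (if S.ncr r q.1 q.2 < 2 ^ i then 1 else 0)) := by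
        intro i _
        rw [Finset.sum_filter, Finset.mul_sum]
        apply Finset.sum_congr rfl
        intro q _
        split_ifs <;> ring
      rw [Finset.sum_congr rfl e2, Finset.sum_comm, Finset.mul_sum]
      apply Finset.sum_congr rfl
      intro q _
      rw [← Finset.mul_sum]
      ring
    rw [e1]
    unfold Sys.ee
    apply Finset.sum_le_sum
    intro q hq
    rw [mem_product] at hq
    have hm : S.ncr r q.1 q.2 < 2 ^ I :=
      lt_of_le_of_lt (ncr_le S ((S.mem_CR).1 hq.1).1 r q.2) hr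
    rw [div_eq_mul_one_div]
    exact mul_le_mul_of_nonneg_left (dyad hm) (mul_nonneg (S.wt_nonneg _) (S.wt_nonneg _))
  calc S.ee r * S.V r ≤ (2 * ∑ i ∈ range (I + 1), (1 / 2 ^ i : ℝ) *
      ∑ q ∈ (S.CR r ×ˢ S.CR r).filter (fun q => S.ncr r q.1 q.2 < 2 ^ i),
        S.wt q.1 * S.wt q.2) * S.V r := mul_le_mul_of_nonneg_right hstep hV
    _ = 2 * ∑ i ∈ range (I + 1), (1 / 2 ^ i : ℝ) * (S.V r *
      ∑ q ∈ (S.CR r ×ˢ S.CR r).filter (fun q => S.ncr r q.1 q.2 < 2 ^ i),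
        S.wt q.1 * S.wt q.2) := by
        rw [mul_assoc, Finset.sum_mul]
        congr 1
        apply Finset.sum_congr rfl
        intro i _
        ring
    _ ≤ 2 * ∑ i ∈ range (I + 1), (1 : ℝ) := by
        apply mul_le_mul_of_nonneg_left _ (by norm_num)
        apply Finset.sum_le_sum
        intro i _
        have h1 := h α S r (2 ^ i)
        have h2 : (0 : ℝ) < 2 ^ i := by positivity
        rw [one_div, inv_mul_le_iff₀ h2, mul_one]
        push_cast at h1
        convert h1 using 2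
    _ = 2 * ((I : ℝ) + 1) := by
        rw [Finset.sum_const, card_range, nsmul_eq_mul, mul_one]
        push_cast
        ring

end Pool.Agent.Helper95.PT
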